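import Pool.Graph.R_pool_sql_team_seeded_2aa45f1a.Q289.BK.Good
import Pool.Graph.R_pool_sql_team_seeded_2aa45f1a.Q25.TFam4
import Pool.Graph.R_seed8.Y883.T3.Vin

set_option autoImplicit false

/-! Families of nearly minimal energy inside residue classes: few members have a divisor in a sparse set. -/

namespace Pool.Agent.H96.BK
open Finset
open Pool.Agent.H373R2.T7 (energy)
open Pool.Agent.Q289.BK (ev_logN ev_logPow root_le card_pow_le sum_sparse)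

/-- concentration in residue classes and intervals -/
lemma conc (p x : ℕ) (hp : 1 ≤ p) (t : ℕ → ℤ) (q e W : ℕ) (hq : 1 ≤ q) (he : 1 ≤ e) (I : Finset ℕ) (hI : I ⊆ Icc 1 x)
    (h : ∀ i ∈ I, ∀ j ∈ I, (e : ℤ) ∣ q * (t i - t j) ∧ |(q : ℤ) * (t i - t j)| ≤ W) :
    (I.card : ℝ) ^ (2 * p) ≤ (2 * (p * W * Nat.gcd e q / (q * e)) + 1) * energy p x t := by
  rcases I.eq_empty_or_nonempty with h0 | ⟨i₀, hi₀⟩
  · rw [h0, card_empty, Nat.cast_zero, zero_pow (by omega)]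
    positivity
  obtain ⟨g, hg⟩ : ∃ g, g = Nat.gcd e q := ⟨_, rfl⟩
  have hg1 : 1 ≤ g := by rw [hg]; exact Nat.gcd_pos_of_pos_left _ he
  obtain ⟨e', he'⟩ : g ∣ e := by rw [hg]; exact Nat.gcd_dvd_left _ _
  obtain ⟨q', hq'⟩ : g ∣ q := by rw [hg]; exact Nat.gcd_dvd_right _ _
  have he1 : 1 ≤ e' := by
    by_contra hcon
    have : e' = 0 := by omega
    subst this
    omega
  have hcop : Nat.Coprime e' q' := by
    have h1 : g * Nat.gcd e' q' = g * 1 := by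
      rw [← Nat.gcd_mul_left, ← he', ← hq', ← hg, mul_one]
    exact Nat.eq_of_mul_eq_mul_left hg1 h1
  have h1 := card_pow_le p x (fun m => t m - t i₀) e' (W / q) he1 I hI (by
    intro i hi
    obtain ⟨h2, h3⟩ := h i hi i₀ hi₀
    constructor
    · have h4 : (g : ℤ) * e' ∣ g * (q' * (t i - t i₀)) := by
        have e1 : (e : ℤ) = g * e' := by exact_mod_cast he'
        have e2 : (q : ℤ) = g * q' := by exact_mod_cast hq'
        rw [e1, e2, mul_assoc] at h2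
        exact h2
      have h5 : (e' : ℤ) ∣ q' * (t i - t i₀) := Int.dvd_of_mul_dvd_mul_left (by exact_mod_cast (by omega : g ≠ 0)) h4
      have h6 : IsCoprime (e' : ℤ) (q' : ℤ) := Nat.isCoprime_iff_coprime.2 hcop
      exact h6.dvd_of_dvd_mul_left h5
    · have h4 : (t i - t i₀).natAbs * q ≤ W := by
        rw [abs_mul, Nat.abs_cast] at h3
        have h5 : (((t i - t i₀).natAbs * q : ℕ) : ℤ) ≤ W := by
          push_cast
          rw [mul_comm]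
          rw [Int.abs_eq_natAbs] at h3
          simpa using h3
        exact_mod_cast h5
      have h5 : (t i - t i₀).natAbs ≤ W / q := (Nat.le_div_iff_mul_le hq).2 h4
      rw [Int.abs_eq_natAbs]
      exact_mod_cast h5)
  rw [Pool.Agent.Q25.TFam.energy_sub] at h1
  refine h1.trans ?_
  apply mul_le_mul_of_nonneg_right _ (Nat.cast_nonneg _)
  have hq0 : (0 : ℝ) < q := by exact_mod_cast hq
  have he0 : (0 : ℝ) < e' := by exact_mod_cast he1
  have hg0 : (0 : ℝ) < g := by exact_mod_cast hg1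
  have h2 : ((p * (W / q) / e' : ℕ) : ℝ) ≤ p * W * g / (q * e) := by
    calc ((p * (W / q) / e' : ℕ) : ℝ) ≤ ((p * (W / q) : ℕ) : ℝ) / e' := Nat.cast_div_le
      _ ≤ (p * ((W : ℝ) / q)) / e' := by
          push_cast
          have : ((W / q : ℕ) : ℝ) ≤ W / q := Nat.cast_div_le
          gcongr
      _ = p * W * g / (q * (g * e')) := by field_simp
      _ = _ := by rw [he']; push_cast; ring
  rw [← hg]
  linarith

/-- few members of a family in a residue class are small -/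
theorem class_small (p C U : ℕ) (hp : 1 ≤ p) (δ : ℝ) (hδ : 0 < δ) : ∃ N₀ : ℕ, ∀ N : ℕ, N₀ ≤ N → ∀ q : ℕ, 1 ≤ q →
    (q : ℝ) ≤ (N : ℝ) ^ (1 - δ) → ∀ (c : ℤ) (x : ℕ) (t : ℕ → ℤ),
    (energy p x t : ℝ) * N ≤ Real.log N ^ C * q * (x : ℝ) ^ (2 * p) →
    ∀ S : Finset ℕ, S ⊆ Icc 1 x → (∀ m ∈ S, |((c + q * t m : ℤ) : ℝ)| * Real.log N ^ (C + 2 * p * (U + 1)) ≤ N) →
      (S.card : ℝ) ≤ x / Real.log N ^ U := by
  obtain ⟨V, hV⟩ : ∃ V, V = C + 2 * p * (U + 1) := ⟨_, rfl⟩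
  obtain ⟨N₂, h2⟩ := ev_logN (((4 * p + 1 : ℕ) : ℝ) ^ (1 / (2 * (p : ℝ))) + 1)
  obtain ⟨N₃, h3⟩ := Pool.Agent.Y883.T3.ev_log_rpow V 1 δ hδ
  refine ⟨N₂ + N₃ + 2, fun N hN q hq hqN c x t hE S hS hSs => ?_⟩
  rw [← hV] at hSs
  have hL := h2 N (by omega)
  have hLN := h3 N (by omega)
  rw [one_mul] at hLN
  have hp0 : (0 : ℝ) < p := by exact_mod_cast hp
  have hr0 : 0 ≤ ((4 * p + 1 : ℕ) : ℝ) ^ (1 / (2 * (p : ℝ))) := by positivity
  obtain ⟨L, hLd⟩ : ∃ L, L = Real.log (N : ℝ) := ⟨_, rfl⟩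
  rw [← hLd] at hE hSs hL hLN ⊢
  have hL1 : 1 ≤ L := by linarith
  have hL0 : 0 < L := by linarith
  have hN0 : (0 : ℝ) < N := by exact_mod_cast (by omega : 0 < N)
  have hLV : 0 < L ^ V := by positivity
  have hq0 : (0 : ℝ) < q := by exact_mod_cast hq
  obtain ⟨Y, hY⟩ : ∃ Y : ℕ, Y = ⌊(N : ℝ) / L ^ V⌋₊ := ⟨_, rfl⟩
  have hYN : (Y : ℝ) ≤ N / L ^ V := by rw [hY]; exact Nat.floor_le (by positivity)
  have hsz : ∀ i ∈ S, |c + q * t i| ≤ Y := by
    intro i hi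
    have h5 := hSs i hi
    have h6 : (((c + q * t i).natAbs : ℕ) : ℝ) = |((c + q * t i : ℤ) : ℝ)| := by
      rw [Nat.cast_natAbs, Int.cast_abs]
    have h7 : (c + q * t i).natAbs ≤ Y := by
      rw [hY]
      apply Nat.le_floor
      rw [h6, le_div_iff₀ hLV]
      exact h5
    rw [Int.abs_eq_natAbs]
    exact_mod_cast h7
  have h4 := conc p x hp t q 1 (2 * Y) hq le_rfl S hS (by
    intro i hi j hj
    refine ⟨by simp, ?_⟩
    have h5 := hsz i hi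
    have h6 := hsz j hj
    have e1 : (q : ℤ) * (t i - t j) = (c + q * t i) - (c + q * t j) := by ring
    rw [e1]
    push_cast
    calc |(c + q * t i) - (c + q * t j)| ≤ |c + q * t i| + |c + q * t j| := abs_sub _ _
      _ ≤ 2 * Y := by linarith)
  have hqN2 : (q : ℝ) * L ^ V ≤ N := by
    calc (q : ℝ) * L ^ V ≤ (N : ℝ) ^ (1 - δ) * (N : ℝ) ^ δ := by gcongr
      _ = N := by rw [← Real.rpow_add hN0]; norm_num
  have h5 : (2 * (p * ((2 * Y : ℕ) : ℝ) * Nat.gcd 1 q / (q * (1 : ℕ))) + 1) ≤ ((4 * p + 1 : ℕ) : ℝ) * (N / (q * L ^ V)) := by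
    have h6 : (1 : ℝ) ≤ N / (q * L ^ V) := by
      rw [le_div_iff₀ (by positivity)]
      linarith
    have h7 : (Y : ℝ) / q ≤ N / (q * L ^ V) := by
      calc (Y : ℝ) / q ≤ (N / L ^ V) / q := by gcongr
        _ = _ := by field_simp
    rw [Nat.gcd_one_left]
    push_cast
    have e1 : 2 * ((p : ℝ) * (2 * Y) * 1 / (q * 1)) + 1 = 4 * p * (Y / q) + 1 := by ring
    rw [e1]
    nlinarith
  have h6 : (S.card : ℝ) ^ (2 * p) ≤ (((4 * p + 1 : ℕ) : ℝ) * (L ^ C / L ^ V)) * (x : ℝ) ^ (2 * p) := by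
    refine h4.trans ?_
    calc (2 * (p * ((2 * Y : ℕ) : ℝ) * Nat.gcd 1 q / (q * (1 : ℕ))) + 1) * (energy p x t : ℝ) ≤
          ((4 * p + 1 : ℕ) : ℝ) * (N / (q * L ^ V)) * (energy p x t : ℝ) :=
          mul_le_mul_of_nonneg_right h5 (Nat.cast_nonneg _)
      _ = ((4 * p + 1 : ℕ) : ℝ) / (q * L ^ V) * ((energy p x t : ℝ) * N) := by ring
      _ ≤ ((4 * p + 1 : ℕ) : ℝ) / (q * L ^ V) * (L ^ C * q * (x : ℝ) ^ (2 * p)) := mul_le_mul_of_nonneg_left hE (by positivity)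
      _ = _ := by field_simp
  have h7 := root_le hp (Nat.cast_nonneg x) (by positivity) h6
  refine h7.trans ?_
  rw [div_eq_mul_inv (x : ℝ)]
  apply mul_le_mul_of_nonneg_left _ (Nat.cast_nonneg x)
  have h8 : L ^ C / L ^ V = (L ^ (U + 1)) ^ (-(2 * (p : ℝ))) := by
    rw [hV, pow_add, ← Real.rpow_natCast L (U + 1), ← Real.rpow_mul hL0.le,
      ← Real.rpow_natCast L (2 * p * (U + 1))]
    have h9 : ((2 * p * (U + 1) : ℕ) : ℝ) = -(((U + 1 : ℕ) : ℝ) * (-(2 * (p : ℝ)))) := by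
      push_cast; ring
    rw [h9, Real.rpow_neg hL0.le]
    field_simp
  rw [h8, Real.mul_rpow (by positivity) (by positivity), ← Real.rpow_mul (by positivity)]
  have h9 : -(2 * (p : ℝ)) * (1 / (2 * (p : ℝ))) = -1 := by field_simp
  rw [h9, Real.rpow_neg_one, pow_succ, mul_inv]
  have h10 : ((4 * p + 1 : ℕ) : ℝ) ^ (1 / (2 * (p : ℝ))) * L⁻¹ ≤ 1 := by
    rw [← div_eq_mul_inv, div_le_one hL0]
    linarith
  calc _ = (L ^ U)⁻¹ * (((4 * p + 1 : ℕ) : ℝ) ^ (1 / (2 * (p : ℝ))) * L⁻¹) := by ring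
    _ ≤ (L ^ U)⁻¹ * 1 := mul_le_mul_of_nonneg_left h10 (by positivity)
    _ = _ := mul_one _

end Pool.Agent.H96.BK
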