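import Pool.Agent.H96.BK.A

set_option autoImplicit false

/-! Families of nearly minimal energy inside residue classes: divisors in a sparse set, good coefficients. -/

namespace Pool.Agent.H96.BK
open Finset
open Pool.Agent.H373R2.T7 (energy)
open Pool.Agent.Q289.BK (ev_logN ev_logPow root_le sum_sparse GoodC small_of)
open Pool.Agent.Y883.T5 (Admissible)
open Pool.Agent.Y883.T6 (SmallSolution)

/-- few members of a family in a residue class have a large divisor in a sparse set -/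
theorem class_div (D : Set ℕ) [DecidablePred (· ∈ D)] (hD : ∀ ε : ℝ, 0 < ε → ∃ X₀ : ℕ, ∀ X : ℕ, X₀ ≤ X →
      (((Icc 1 X).filter (fun e => e ∈ D)).card : ℝ) ≤ (X : ℝ) ^ ε) (p A B C U : ℕ) (hp : 1 ≤ p) (δ : ℝ) (hδ : 0 < δ)
      (hδ1 : δ ≤ 1) :
    ∃ T₀ N₀ : ℕ, ∀ N : ℕ, N₀ ≤ N → ∀ q : ℕ, 1 ≤ q → (q : ℝ) ≤ (N : ℝ) ^ (1 - δ) →
    ∀ (c : ℤ) (x : ℕ) (t : ℕ → ℤ), (Int.gcd c q : ℝ) ≤ Real.log N ^ A →
    (∀ m ∈ Icc 1 x, |c + q * t m| ≤ B * N) → (energy p x t : ℝ) * N ≤ Real.log N ^ C * q * (x : ℝ) ^ (2 * p) →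
    ∀ S : Finset ℕ, S ⊆ Icc 1 x →
      (∀ m ∈ S, c + q * t m ≠ 0 ∧ ∃ e ∈ D, Real.log N ^ T₀ < (e : ℝ) ∧ (e : ℤ) ∣ c + q * t m) →
      (S.card : ℝ) ≤ x / Real.log N ^ U := by
  classical
  have hp0 : (0 : ℝ) < p := by exact_mod_cast hp
  obtain ⟨σ, hσ⟩ : ∃ σ : ℝ, σ = 1 / (2 * (p : ℝ)) := ⟨_, rfl⟩
  have hσ0 : 0 < σ := by rw [hσ]; positivity
  obtain ⟨K, hK0, hK⟩ := sum_sparse D hD (δ * σ / 2) (by positivity)
  obtain ⟨T₀, hT₀⟩ := exists_nat_ge (((A + C) * σ + (U + 1)) / (δ * σ / 2))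
  obtain ⟨M, hM⟩ : ∃ M : ℝ, M = ((4 * p * B + (B + 1) : ℕ) : ℝ) ^ σ * K := ⟨_, rfl⟩
  have hM0 : 0 ≤ M := by rw [hM]; positivity
  obtain ⟨N₂, h2⟩ := ev_logN (M + 1)
  refine ⟨T₀, N₂ + 2, fun N hN q hq hqN c x t hg hs hE S hS hSs => ?_⟩
  have hL := h2 N (by omega)
  obtain ⟨L, hLd⟩ : ∃ L, L = Real.log (N : ℝ) := ⟨_, rfl⟩
  rw [← hLd] at hE hSs hL hg ⊢
  have hL1 : 1 ≤ L := by linarith
  have hL0 : 0 < L := by linarith
  have hN0 : (0 : ℝ) < N := by exact_mod_cast (by omega : 0 < N)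
  have hN1 : (1 : ℝ) ≤ N := by exact_mod_cast (by omega : 1 ≤ N)
  have hq0 : (0 : ℝ) < q := by exact_mod_cast hq
  obtain ⟨Z, hZ⟩ : ∃ Z : ℝ, Z = L ^ T₀ := ⟨_, rfl⟩
  rw [← hZ] at hSs
  have hZ0 : 0 < Z := by rw [hZ]; positivity
  obtain ⟨E, hEd⟩ : ∃ E, E = (Icc 1 (B * N)).filter (fun e : ℕ => e ∈ D ∧ Z < (e : ℝ)) := ⟨_, rfl⟩
  have hsub : S ⊆ E.biUnion (fun e => S.filter (fun m => (e : ℤ) ∣ c + q * t m)) := by
    intro m hm
    obtain ⟨h3, e, h4, h5, h6⟩ := hSs m hm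
    rw [mem_biUnion]
    refine ⟨e, ?_, mem_filter.2 ⟨hm, h6⟩⟩
    rw [hEd, mem_filter, mem_Icc]
    refine ⟨⟨?_, ?_⟩, h4, h5⟩
    · by_contra hcon
      have he0 : e = 0 := by omega
      subst he0
      rw [Nat.cast_zero] at h5
      linarith
    · have h7 := Int.natAbs_dvd_natAbs.2 h6
      rw [Int.natAbs_natCast] at h7
      have h8 := Nat.le_of_dvd (Int.natAbs_pos.2 h3) h7
      have h9 : ((c + q * t m).natAbs : ℤ) ≤ ((B * N : ℕ) : ℤ) := by
        rw [← Int.abs_eq_natAbs]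
        push_cast
        exact hs m (hS hm)
      have h10 : (c + q * t m).natAbs ≤ B * N := by exact_mod_cast h9
      omega
  have h3 := (card_le_card hsub).trans card_biUnion_le
  have h4 : (S.card : ℝ) ≤ ∑ e ∈ E, ((S.filter (fun m => (e : ℤ) ∣ c + q * t m)).card : ℝ) := by exact_mod_cast h3
  refine h4.trans ?_
  have h5 : ∀ e ∈ E, ((S.filter (fun m => (e : ℤ) ∣ c + q * t m)).card : ℝ) ≤
      (x * (((4 * p * B + (B + 1) : ℕ) : ℝ) * L ^ (A + C)) ^ σ * Z ^ (-(δ * σ / 2))) * (e : ℝ) ^ (-(δ * σ / 2)) := by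
    intro e he
    rw [hEd, mem_filter, mem_Icc] at he
    obtain ⟨⟨he1, he2⟩, _, he3⟩ := he
    have he0 : (0 : ℝ) < e := by exact_mod_cast he1
    have he1r : (1 : ℝ) ≤ e := by exact_mod_cast he1
    rcases (S.filter (fun m => (e : ℤ) ∣ c + q * t m)).eq_empty_or_nonempty with h0 | ⟨i₀, hi₀⟩
    · rw [h0, card_empty, Nat.cast_zero]
      positivity
    have hge : ((Nat.gcd e q : ℕ) : ℝ) ≤ L ^ A := by
      refine le_trans ?_ hg
      have hd := (mem_filter.1 hi₀).2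
      have h7 : Nat.gcd e q ∣ Int.gcd c q := by
        have h8 : ((Nat.gcd e q : ℕ) : ℤ) ∣ c := by
          have h9 : ((Nat.gcd e q : ℕ) : ℤ) ∣ c + q * t i₀ := (Int.natCast_dvd_natCast.2 (Nat.gcd_dvd_left e q)).trans hd
          have h10 : ((Nat.gcd e q : ℕ) : ℤ) ∣ q * t i₀ := (Int.natCast_dvd_natCast.2 (Nat.gcd_dvd_right e q)).mul_right _
          exact (dvd_add_left h10).1 h9
        have h9 : ((Nat.gcd e q : ℕ) : ℤ) ∣ (q : ℤ) := Int.natCast_dvd_natCast.2 (Nat.gcd_dvd_right e q)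
        have h10 := Int.dvd_coe_gcd h8 h9
        exact_mod_cast h10
      have h8 : 0 < Int.gcd c q := Int.gcd_pos_of_ne_zero_right _ (by exact_mod_cast (by omega : q ≠ 0))
      exact_mod_cast Nat.le_of_dvd h8 h7
    have h6 := conc p x hp t q e (2 * (B * N)) hq he1 (S.filter (fun m => (e : ℤ) ∣ c + q * t m)) ((filter_subset _ _).trans hS) (by
      intro i hi j hj
      obtain ⟨hi1, hi2⟩ := mem_filter.1 hi
      obtain ⟨hj1, hj2⟩ := mem_filter.1 hj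
      have e1 : (q : ℤ) * (t i - t j) = (c + q * t i) - (c + q * t j) := by ring
      rw [e1]
      refine ⟨dvd_sub hi2 hj2, ?_⟩
      push_cast
      have h8 := hs i (hS hi1)
      have h9 := hs j (hS hj1)
      calc |(c + q * t i) - (c + q * t j)| ≤ |c + q * t i| + |c + q * t j| := abs_sub _ _
        _ ≤ 2 * (B * N) := by linarith)
    -- the comparison of the two terms
    have hqN2 : (q : ℝ) / N ≤ (B + 1) * (e : ℝ) ^ (-δ) := by
      have heN : (e : ℝ) ≤ (B + 1) * N := by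
        have : (e : ℝ) ≤ B * N := by exact_mod_cast he2
        linarith
      rw [div_le_iff₀ hN0]
      have h7 : ((e : ℝ)) ^ δ ≤ (B + 1) * (N : ℝ) ^ δ := by
        calc (e : ℝ) ^ δ ≤ ((B + 1) * (N : ℝ)) ^ δ := Real.rpow_le_rpow he0.le heN hδ.le
          _ = ((B + 1 : ℝ)) ^ δ * (N : ℝ) ^ δ := Real.mul_rpow (by positivity) hN0.le
          _ ≤ ((B + 1 : ℝ)) ^ (1 : ℝ) * (N : ℝ) ^ δ := by
              apply mul_le_mul_of_nonneg_right _ (by positivity)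
              apply Real.rpow_le_rpow_of_exponent_le _ hδ1
              linarith [(Nat.cast_nonneg B : (0 : ℝ) ≤ B)]
          _ = _ := by rw [Real.rpow_one]
      rw [Real.rpow_neg he0.le]
      have h8 : (0 : ℝ) < (e : ℝ) ^ δ := by positivity
      calc (q : ℝ) ≤ (N : ℝ) ^ (1 - δ) := hqN
        _ = N / (N : ℝ) ^ δ := by rw [Real.rpow_sub hN0, Real.rpow_one]
        _ ≤ N / ((e : ℝ) ^ δ / (B + 1)) := by
            apply div_le_div_of_nonneg_left hN0.le (by positivity)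
            rw [div_le_iff₀ (by positivity)]
            linarith
        _ = _ := by field_simp
    have hee : (1 : ℝ) / e ≤ (e : ℝ) ^ (-δ) := by
      rw [one_div, ← Real.rpow_neg_one]
      exact Real.rpow_le_rpow_of_exponent_le he1r (by linarith)
    have hLAC : L ^ C ≤ L ^ (A + C) := pow_le_pow_right₀ hL1 (by omega)
    have h8 : ((S.filter (fun m => (e : ℤ) ∣ c + q * t m)).card : ℝ) ^ (2 * p) ≤
        ((((4 * p * B + (B + 1) : ℕ) : ℝ) * L ^ (A + C)) * (e : ℝ) ^ (-δ)) * (x : ℝ) ^ (2 * p) := by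
      refine h6.trans ?_
      have hg0 : (0 : ℝ) ≤ ((Nat.gcd e q : ℕ) : ℝ) := Nat.cast_nonneg _
      calc (2 * (p * ((2 * (B * N) : ℕ) : ℝ) * Nat.gcd e q / (q * e)) + 1) * (energy p x t : ℝ) =
            (4 * p * B * Nat.gcd e q / e + q / N) * (1 / q) * ((energy p x t : ℝ) * N) := by
            push_cast
            field_simp
            ring
        _ ≤ (4 * p * B * Nat.gcd e q / e + q / N) * (1 / q) * (L ^ C * q * (x : ℝ) ^ (2 * p)) :=
            mul_le_mul_of_nonneg_left hE (by positivity)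
        _ = (4 * p * B * (Nat.gcd e q * L ^ C) * (1 / e) + (q / N) * L ^ C) * (x : ℝ) ^ (2 * p) := by field_simp
        _ ≤ (4 * p * B * (L ^ A * L ^ C) * (e : ℝ) ^ (-δ) + ((B + 1) * (e : ℝ) ^ (-δ)) * L ^ (A + C)) * (x : ℝ) ^ (2 * p) := by
            gcongr
        _ = _ := by
            push_cast
            rw [pow_add]
            ring
    have h9 := root_le hp (Nat.cast_nonneg x) (by positivity) h8
    rw [← hσ] at h9
    refine h9.trans ?_
    rw [Real.mul_rpow (by positivity) (by positivity), ← Real.rpow_mul he0.le]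
    have h10 : (e : ℝ) ^ (-δ * σ) ≤ Z ^ (-(δ * σ / 2)) * (e : ℝ) ^ (-(δ * σ / 2)) := by
      have h11 : (e : ℝ) ^ (-δ * σ) = (e : ℝ) ^ (-(δ * σ / 2)) * (e : ℝ) ^ (-(δ * σ / 2)) := by
        rw [← Real.rpow_add he0]
        congr 1
        ring
      rw [h11]
      apply mul_le_mul_of_nonneg_right _ (by positivity)
      exact Real.rpow_le_rpow_of_nonpos hZ0 he3.le (by
        have : 0 < δ * σ := by positivity
        linarith)
    calc (x : ℝ) * ((((4 * p * B + (B + 1) : ℕ) : ℝ) * L ^ (A + C)) ^ σ * (e : ℝ) ^ (-δ * σ))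
        ≤ x * ((((4 * p * B + (B + 1) : ℕ) : ℝ) * L ^ (A + C)) ^ σ * (Z ^ (-(δ * σ / 2)) * (e : ℝ) ^ (-(δ * σ / 2)))) := by
          gcongr
      _ = _ := by ring
  refine (sum_le_sum h5).trans ?_
  rw [← mul_sum]
  have h6 : ∑ e ∈ E, (e : ℝ) ^ (-(δ * σ / 2)) ≤ K := hK E (by
    intro e he
    rw [hEd, mem_filter, mem_Icc] at he
    exact ⟨he.2.1, he.1.1⟩)
  refine (mul_le_mul_of_nonneg_left h6 (by positivity)).trans ?_
  rw [div_eq_mul_inv (x : ℝ), mul_assoc, mul_assoc]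
  apply mul_le_mul_of_nonneg_left _ (Nat.cast_nonneg x)
  have h7 : (L ^ (A + C)) ^ σ * Z ^ (-(δ * σ / 2)) ≤ (L ^ (U + 1))⁻¹ := by
    rw [hZ, ← Real.rpow_natCast L (A + C), ← Real.rpow_natCast L T₀, ← Real.rpow_mul hL0.le,
      ← Real.rpow_mul hL0.le, ← Real.rpow_add hL0, ← Real.rpow_natCast L (U + 1), ← Real.rpow_neg hL0.le]
    apply Real.rpow_le_rpow_of_exponent_le hL1
    rw [div_le_iff₀ (by positivity)] at hT₀
    push_cast
    linarith
  rw [Real.mul_rpow (by positivity) (by positivity)]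
  calc ((4 * p * B + (B + 1) : ℕ) : ℝ) ^ σ * (L ^ (A + C)) ^ σ * (Z ^ (-(δ * σ / 2)) * K)
      = (((4 * p * B + (B + 1) : ℕ) : ℝ) ^ σ * K) * ((L ^ (A + C)) ^ σ * Z ^ (-(δ * σ / 2))) := by ring
    _ ≤ M * (L ^ (U + 1))⁻¹ := by
        rw [← hM]
        exact mul_le_mul_of_nonneg_left h7 hM0
    _ = (L ^ U)⁻¹ * (M * L⁻¹) := by rw [pow_succ, mul_inv]; ring
    _ ≤ (L ^ U)⁻¹ * 1 := by
      apply mul_le_mul_of_nonneg_left _ (by positivity)
      rw [← div_eq_mul_inv, div_le_one hL0]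
      linarith
    _ = _ := mul_one _

theorem class_good (ε : ℝ) (hε : 0 < ε) (T p A B C U : ℕ) (hp : 1 ≤ p) (δ : ℝ) (hδ : 0 < δ) (hδ1 : δ ≤ 1) :
    ∃ N₀ : ℕ, ∀ N : ℕ, N₀ ≤ N → ∀ q : ℕ, 1 ≤ q → (q : ℝ) ≤ (N : ℝ) ^ (1 - δ) →
    ∀ (c : ℤ) (x : ℕ) (t : ℕ → ℤ), (Int.gcd c q : ℝ) ≤ Real.log N ^ A →
    (∀ m ∈ Icc 1 x, |c + q * t m| ≤ B * N) → (energy p x t : ℝ) * N ≤ Real.log N ^ C * q * (x : ℝ) ^ (2 * p) →
    ∀ S : Finset ℕ, S ⊆ Icc 1 x → (∀ m ∈ S, ¬ GoodC (3 / 2 + ε) T (c + q * t m).natAbs) → (S.card : ℝ) ≤ x / Real.log N ^ U := by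
  classical
  obtain ⟨D, -, hD, hone⟩ := Pool.Agent.Y883.T6.one6
  obtain ⟨T₀, N₂, h2⟩ := class_div D (by
    intro ε hε
    obtain ⟨X₀, h⟩ := hD ε hε
    refine ⟨X₀, fun X hX => ?_⟩
    convert h X hX) p A B C (U + 1) hp δ hδ hδ1
  obtain ⟨V, hV⟩ : ∃ V, V = C + 2 * p * (U + 1 + 1) := ⟨_, rfl⟩
  obtain ⟨c₀, F, -, hF, hmain⟩ := hone (3 / 2 + ε) (by linarith) 1 one_pos (T + 2 * T₀)
  have hF0 := hF (by linarith)
  obtain ⟨N₁, h1⟩ := class_small p C (U + 1) hp δ hδ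
  obtain ⟨N₃, h3⟩ := ev_logN 4
  obtain ⟨N₄, h4⟩ := ev_logPow 1 (2 * V)
  obtain ⟨N₅, h5⟩ := ev_logPow c₀ V
  refine ⟨N₁ + N₂ + N₃ + N₄ + N₅ + 1, fun N hN q hq hqN c x t hg hs hE S hS hSb => ?_⟩
  have g1 := h1 N (by omega) q hq hqN c x t hE
  have g2 := h2 N (by omega) q hq hqN c x t hg hs hE
  have g3 := h3 N (by omega)
  have g4 := h4 N (by omega)
  have g5 := h5 N (by omega)
  rw [← hV] at g1
  obtain ⟨L, hL⟩ : ∃ L, L = Real.log (N : ℝ) := ⟨_, rfl⟩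
  rw [← hL] at g1 g2 g3 g4 g5 ⊢
  have hL0 : 0 < L := by linarith
  have hN0 : (0 : ℝ) < N := by exact_mod_cast (by omega : 0 < N)
  have a1 := g1 (S.filter (fun m => |((c + q * t m : ℤ) : ℝ)| * L ^ V ≤ N)) ((filter_subset _ _).trans hS)
    (fun m hm => (mem_filter.1 hm).2)
  have a2 := g2 (S.filter (fun m => ¬ |((c + q * t m : ℤ) : ℝ)| * L ^ V ≤ N)) ((filter_subset _ _).trans hS) (by
    intro m hm
    obtain ⟨hm1, hm2⟩ := mem_filter.1 hm
    rw [not_le] at hm2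
    obtain ⟨s, hs'⟩ : ∃ s : ℤ, s = c + q * t m := ⟨_, rfl⟩
    rw [← hs'] at hm2 ⊢
    have hSb' := hSb m hm1
    rw [← hs'] at hSb'
    have hLV : 0 < L ^ V := by positivity
    have e1 : (N : ℝ) / L ^ V < |(s : ℝ)| := by rwa [div_lt_iff₀ hLV]
    have e2 : (0 : ℝ) < |(s : ℝ)| := lt_trans (by positivity) e1
    have e3 : s ≠ 0 := by
      intro h0
      rw [h0] at e2
      simp at e2
    refine ⟨e3, ?_⟩
    by_contra hcon
    push Not at hcon
    apply hSb'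
    intro a b c' d hadm hc ha hb
    have hcabs : |(c' : ℝ)| = |(s : ℝ)| := by
      rw [← Int.cast_abs, ← Int.cast_abs, Int.abs_eq_natAbs, Int.abs_eq_natAbs, hc]
    have hlog : L / 2 ≤ Real.log |(c' : ℝ)| := by
      rw [hcabs]
      have e4 : Real.log ((N : ℝ) / L ^ V) ≤ Real.log |(s : ℝ)| := Real.log_le_log (by positivity) e1.le
      rw [Real.log_div hN0.ne' hLV.ne', ← hL] at e4
      have e5 : Real.log (L ^ V) ≤ L / 2 := by
        have e6 : L ^ V * L ^ V ≤ N := by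
          rw [← pow_add]
          have : V + V = 2 * V := by omega
          rw [this]
          linarith
        have e7 := Real.log_le_log (by positivity) e6
        rw [Real.log_mul hLV.ne' hLV.ne', ← hL] at e7
        linarith
      linarith
    have hlog1 : 1 ≤ Real.log |(c' : ℝ)| := by linarith
    have hpow : Real.log |(c' : ℝ)| ^ T ≤ Real.log |(c' : ℝ)| ^ (T + 2 * T₀) := pow_le_pow_right₀ hlog1 (by omega)
    refine small_of (by linarith) (hmain a b c' d hadm ?_ ?_ ?_ (ha.trans hpow) (hb.trans hpow))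
    · have e4 : (c₀ : ℝ) < |(s : ℝ)| := by
        refine lt_trans ?_ e1
        rw [lt_div_iff₀ hLV]
        exact g5
      have e5 : ((s.natAbs : ℕ) : ℝ) = |(s : ℝ)| := by
        rw [Nat.cast_natAbs, Int.cast_abs]
      rw [← e5, ← hc] at e4
      exact_mod_cast e4.le
    · rw [hF0]
      exact Set.notMem_empty _
    · intro e he1 he2 he3
      refine hcon e he1 (lt_of_le_of_lt ?_ he2) ?_
      · calc L ^ T₀ ≤ ((L / 2) ^ 2) ^ T₀ := by
              apply pow_le_pow_left₀ hL0.le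
              nlinarith
          _ = (L / 2) ^ (2 * T₀) := by rw [← pow_mul]
          _ ≤ (L / 2) ^ (T + 2 * T₀) := pow_le_pow_right₀ (by linarith) (by omega)
          _ ≤ _ := pow_le_pow_left₀ (by linarith) hlog _
      · rw [← Int.natAbs_dvd_natAbs] at he3 ⊢
        rwa [hc] at he3)
  have hcard : (S.card : ℝ) = ((S.filter (fun m => |((c + q * t m : ℤ) : ℝ)| * L ^ V ≤ N)).card : ℝ) +
      ((S.filter (fun m => ¬ |((c + q * t m : ℤ) : ℝ)| * L ^ V ≤ N)).card : ℝ) := by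
    exact_mod_cast (card_filter_add_card_filter_not _).symm
  rw [hcard]
  have h9 : (x : ℝ) / L ^ (U + 1) ≤ (x / L ^ U) / 2 := by
    rw [pow_succ, ← div_div]
    apply div_le_div_of_nonneg_left (by positivity) (by norm_num) (by linarith)
  linarith

end Pool.Agent.H96.BK
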