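import Pool.Agent.H96.BK.B
import Pool.Agent.H96.LM.A
import Pool.Agent.H96.LM.E

set_option autoImplicit false

/-! Families inside residue classes, windows around the members. -/

namespace Pool.Agent.H96.BK
open Finset
open Pool.Agent.TH935.GF (En)
open Pool.Agent.H373R2.T7 (energy ev_L')
open Pool.Agent.Q289.BK (GoodC)

open Classical in
theorem class_win (ε : ℝ) (hε : 0 < ε) (T p A B C U : ℕ) (hp : 1 ≤ p) (δ : ℝ) (hδ : 0 < δ) (hδ1 : δ ≤ 1) :
    ∃ N₀ : ℕ, ∀ N : ℕ, N₀ ≤ N → ∀ q : ℕ, 1 ≤ q → (q : ℝ) ≤ (N : ℝ) ^ (1 - δ) →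
    ∀ (c : ℤ) (Z : Type) [Fintype Z] (t : Z → ℤ),
    (∀ z, |c + q * t z| ≤ B * N) → (En p t : ℝ) * N ≤ Real.log N ^ C * q * (Fintype.card Z : ℝ) ^ (2 * p) →
    (((univ : Finset Z).filter (fun z => ∃ n : ℤ, |(n : ℝ) - (c + q * t z : ℤ)| ≤ Real.log N ^ A ∧
      (Int.gcd n q : ℝ) ≤ Real.log N ^ A ∧ ¬ GoodC (3 / 2 + ε) T n.natAbs)).card : ℝ) ≤
      Fintype.card Z / Real.log N ^ U := by
  obtain ⟨N₀, h0⟩ := class_good ε hε T p A (B + 1) C (U + (A + 1)) hp δ hδ hδ1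
  obtain ⟨N₁, h1⟩ := ev_L' 3
  obtain ⟨N₂, h2⟩ := Pool.Agent.TH935.LD.log_pow_small A
  refine ⟨N₀ + N₁ + N₂ + 3, fun N hN q hq hqN c Z _ t hv hE => ?_⟩
  have hL3 := h1 N (by omega)
  have hsm := h2 N (by omega)
  have h0' := h0 N (by omega) q hq hqN
  obtain ⟨L, hLd⟩ : ∃ L, L = Real.log (N : ℝ) := ⟨_, rfl⟩
  rw [← hLd] at hL3 hsm hE h0' ⊢
  have hL0 : 0 < L := by linarith
  have hL1 : 1 ≤ L := by linarith
  obtain ⟨W, hW⟩ : ∃ W : ℕ, W = ⌊L ^ A⌋₊ := ⟨_, rfl⟩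
  have hWle : (W : ℝ) ≤ L ^ A := by rw [hW]; exact Nat.floor_le (by positivity)
  have hWN : (W : ℝ) ≤ N := by
    have : 0 < L ^ A := by positivity
    linarith
  have hWN' : (W : ℤ) ≤ N := by exact_mod_cast hWN
  obtain ⟨e, s, hinj, hmem, hsurj, hse, hen⟩ := Pool.Agent.H96.LM.reindex t
  obtain ⟨P, hP⟩ : ∃ P : ℤ → Z → Prop, P = fun k z => (Int.gcd (c + k) q : ℝ) ≤ L ^ A ∧
    ¬ GoodC (3 / 2 + ε) T ((c + k) + q * t z).natAbs := ⟨_, rfl⟩
  have hcov : (univ : Finset Z).filter (fun z => ∃ n : ℤ, |(n : ℝ) - (c + q * t z : ℤ)| ≤ L ^ A ∧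
      (Int.gcd n q : ℝ) ≤ L ^ A ∧ ¬ GoodC (3 / 2 + ε) T n.natAbs) ⊆
      (Icc (-(W : ℤ)) W).biUnion (fun k => univ.filter (P k)) := by
    intro z hz
    obtain ⟨-, n, hn1, hn2, hn3⟩ := mem_filter.1 hz
    rw [mem_biUnion]
    obtain ⟨k, hk⟩ : ∃ k, k = n - (c + q * t z) := ⟨_, rfl⟩
    have hn : n = (c + k) + q * t z := by rw [hk]; ring
    refine ⟨k, ?_, ?_⟩
    · have h4 : (k.natAbs : ℝ) ≤ L ^ A := by
        rw [Nat.cast_natAbs, Int.cast_abs, hk]
        push_cast at hn1 ⊢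
        exact hn1
      have h5 : k.natAbs ≤ W := by rw [hW]; exact Nat.le_floor h4
      rw [mem_Icc]
      omega
    · rw [mem_filter, hP]
      refine ⟨mem_univ _, ?_, ?_⟩
      · have h4 : Int.gcd (c + k) q = Int.gcd n q := by
          rw [hn, Int.gcd_add_mul_left_left]
        rw [h4]
        exact hn2
      · rw [← hn]
        exact hn3
  have hj : ∀ k ∈ Icc (-(W : ℤ)) W, (((univ : Finset Z).filter (P k)).card : ℝ) ≤ Fintype.card Z / L ^ (U + (A + 1)) := by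
    intro k hk
    rw [mem_Icc, ← abs_le] at hk
    by_cases hg : (Int.gcd (c + k) q : ℝ) ≤ L ^ A
    · have h3 := h0' (c + k) (Fintype.card Z) s hg (by
        intro m hm
        obtain ⟨z, rfl⟩ := hsurj m hm
        rw [hse]
        have h4 := hv z
        calc |(c + k) + q * t z| = |(c + q * t z) + k| := by ring_nf
          _ ≤ |c + q * t z| + |k| := abs_add_le _ _
          _ ≤ B * N + N := by linarith
          _ = _ := by push_cast; ring) (by rw [hen]; exact hE)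
        (((univ : Finset Z).filter (P k)).image e) (by
          intro m hm
          obtain ⟨z, _, rfl⟩ := mem_image.1 hm
          exact hmem z) (by
          intro m hm
          obtain ⟨z, hz, rfl⟩ := mem_image.1 hm
          rw [hse]
          rw [mem_filter, hP] at hz
          exact hz.2.2)
      rwa [card_image_of_injective _ hinj] at h3
    · have h4 : (univ : Finset Z).filter (P k) = ∅ := by
        apply filter_eq_empty_iff.2
        intro z _ hz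
        rw [hP] at hz
        exact hg hz.1
      rw [h4, card_empty, Nat.cast_zero]
      positivity
  have hScard : ((Icc (-(W : ℤ)) W).card : ℝ) ≤ L ^ (A + 1) := by
    rw [Int.card_Icc]
    have e1 : ((W : ℤ) + 1 - -(W : ℤ)).toNat = 2 * W + 1 := by omega
    rw [e1]
    push_cast
    have h4 : 1 ≤ L ^ A := one_le_pow₀ hL1
    rw [pow_succ]
    nlinarith
  calc (((univ : Finset Z).filter (fun z => ∃ n : ℤ, |(n : ℝ) - (c + q * t z : ℤ)| ≤ L ^ A ∧
      (Int.gcd n q : ℝ) ≤ L ^ A ∧ ¬ GoodC (3 / 2 + ε) T n.natAbs)).card : ℝ) ≤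
        (((Icc (-(W : ℤ)) W).biUnion (fun k => univ.filter (P k))).card : ℝ) := by
        exact_mod_cast card_le_card hcov
    _ ≤ ∑ k ∈ Icc (-(W : ℤ)) W, (((univ : Finset Z).filter (P k)).card : ℝ) := by exact_mod_cast card_biUnion_le
    _ ≤ ∑ _k ∈ Icc (-(W : ℤ)) W, (Fintype.card Z / L ^ (U + (A + 1)) : ℝ) := sum_le_sum hj
    _ = (Icc (-(W : ℤ)) W).card * (Fintype.card Z / L ^ (U + (A + 1)) : ℝ) := by rw [sum_const, nsmul_eq_mul]
    _ ≤ L ^ (A + 1) * (Fintype.card Z / L ^ (U + (A + 1)) : ℝ) := by gcongr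
    _ = _ := by
        rw [pow_add L U (A + 1)]
        field_simp

/-- the order of the energy may be raised -/
lemma lift_order {V : Type} [Fintype V] (v : V → ℤ) (h h' C C' N q : ℕ) (hh : h ≤ h') (hC : C ≤ C') (hL : 1 ≤ Real.log (N : ℝ))
    (hE : (En h v : ℝ) * N ≤ Real.log N ^ C * q * (Fintype.card V : ℝ) ^ (2 * h)) :
    (En h' v : ℝ) * N ≤ Real.log N ^ C' * q * (Fintype.card V : ℝ) ^ (2 * h') := by
  obtain ⟨r, rfl⟩ : ∃ r, h' = h + r := ⟨h' - h, by omega⟩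
  have h7 : (En (h + r) v : ℝ) ≤ (Fintype.card V : ℝ) ^ (2 * r) * En h v := by
    exact_mod_cast Pool.Agent.H96.PR.En_mono h r v
  obtain ⟨cc, hcc⟩ : ∃ cc : ℝ, cc = (Fintype.card V : ℝ) := ⟨_, rfl⟩
  have hcc0 : 0 ≤ cc := by rw [hcc]; positivity
  rw [← hcc] at hE h7 ⊢
  have hL' : Real.log N ^ C ≤ Real.log N ^ C' := pow_le_pow_right₀ hL hC
  have hq0 : (0 : ℝ) ≤ q := Nat.cast_nonneg _
  calc (En (h + r) v : ℝ) * N ≤ cc ^ (2 * r) * En h v * N :=
        mul_le_mul_of_nonneg_right h7 (Nat.cast_nonneg _)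
    _ = cc ^ (2 * r) * (En h v * N) := by ring
    _ ≤ cc ^ (2 * r) * (Real.log N ^ C * q * cc ^ (2 * h)) := mul_le_mul_of_nonneg_left hE (by positivity)
    _ ≤ cc ^ (2 * r) * (Real.log N ^ C' * q * cc ^ (2 * h)) := by gcongr
    _ = Real.log N ^ C' * q * cc ^ (2 * (h + r)) := by ring

end Pool.Agent.H96.BK
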